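import Mathlib

set_option autoImplicit false

/-!
# Integrals over simplices by bisection

`T ι` is the simplex `{y | 0 ≤ y, ∑ y ≤ 1}`, `bar V y` the point with barycentric coordinates
`(y, 1 - ∑ y)` with respect to the points `V : Option ι → E`, and `EV V G` the integral of
`G (bar V y)` over `y ∈ T ι`.
-/

namespace Pool.Agent.Work.MP_122e00_nt.Chamber

open MeasureTheory Set Function

open scoped ENNReal

/-- The simplex. -/
def T (ι : Type) [Fintype ι] : Set (ι → ℝ) := {y | (∀ i, 0 ≤ y i) ∧ ∑ i, y i ≤ 1}

/-- The point with barycentric coordinates `(y, 1 - ∑ y)`. -/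
noncomputable def bar {ι E : Type} [Fintype ι] [AddCommGroup E] [Module ℝ E] (V : Option ι → E)
    (y : ι → ℝ) : E :=
  ∑ i, y i • V (some i) + (1 - ∑ i, y i) • V none

/-- The integral of `G` over the simplex with vertices `V` (in barycentric coordinates). -/
noncomputable def EV {ι E : Type} [Fintype ι] [AddCommGroup E] [Module ℝ E] (V : Option ι → E)
    (G : E → ℝ≥0∞) : ℝ≥0∞ :=
  ∫⁻ y in T ι, G (bar V y)

theorem measurableSet_T (ι : Type) [Fintype ι] : MeasurableSet (T ι) := by
  have h1 : MeasurableSet {y : ι → ℝ | ∀ i, 0 ≤ y i} := by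
    rw [show {y : ι → ℝ | ∀ i, 0 ≤ y i} = ⋂ i, {y | 0 ≤ y i} by ext; simp]
    exact MeasurableSet.iInter fun i => measurableSet_le measurable_const (measurable_pi_apply i)
  have h2 : MeasurableSet {y : ι → ℝ | ∑ i, y i ≤ 1} := by
    refine measurableSet_le ?_ measurable_const
    exact Finset.measurable_sum _ fun i _ => measurable_pi_apply i
  exact h1.inter h2

/-- One dimensional splitting. -/
theorem split_one (g : ℝ → ℝ≥0∞) (s μ : ℝ) (h0 : 0 ≤ μ) (h1 : μ ≤ 1) :
    ∫⁻ t in Icc 0 s, g t = ENNReal.ofReal μ * (∫⁻ t in Icc 0 s, g (μ * t)) +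
      ENNReal.ofReal (1 - μ) * (∫⁻ t in Icc 0 s, g (μ * s + (1 - μ) * t)) := by
  rcases lt_or_ge s 0 with hs | hs
  · rw [Icc_eq_empty (by linarith)]
    simp
  rcases h0.eq_or_lt with rfl | h0
  · simp
  rcases h1.eq_or_lt with rfl | h1
  · simp
  have e1 : ENNReal.ofReal μ * ∫⁻ t in Icc 0 s, g (μ * t) = ∫⁻ t in Icc 0 (μ * s), g t := by
    have h := lintegral_image_eq_lintegral_abs_deriv_mul (s := Icc (0 : ℝ) s)
      (f := fun t => μ * t) (f' := fun _ => μ) measurableSet_Icc
      (fun x _ => by simpa using ((hasDerivAt_id x).const_mul μ).hasDerivWithinAt)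
      (fun x _ y _ hxy => by
        have : μ * x = μ * y := hxy
        exact mul_left_cancel₀ h0.ne' this) g
    have h2 : (fun t => μ * t) '' Icc 0 s = Icc 0 (μ * s) := by
      rw [Set.image_mul_left_Icc h0.le hs, mul_zero]
    rw [h2] at h
    rw [h, lintegral_const_mul']
    · rw [abs_of_pos h0]
    · exact ENNReal.ofReal_ne_top
  have e2 : ENNReal.ofReal (1 - μ) * ∫⁻ t in Icc 0 s, g (μ * s + (1 - μ) * t) =
      ∫⁻ t in Icc (μ * s) s, g t := by
    have h := lintegral_image_eq_lintegral_abs_deriv_mul (s := Icc (0 : ℝ) s)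
      (f := fun t => μ * s + (1 - μ) * t) (f' := fun _ => (1 - μ)) measurableSet_Icc
      (fun x _ => by
        simpa using (((hasDerivAt_id x).const_mul (1 - μ)).const_add (μ * s)).hasDerivWithinAt)
      (fun x _ y _ hxy => by
        have h3 : μ * s + (1 - μ) * x = μ * s + (1 - μ) * y := hxy
        have h4 : (1 - μ) * x = (1 - μ) * y := by linarith
        exact mul_left_cancel₀ (by linarith) h4) g
    have h2 : (fun t => μ * s + (1 - μ) * t) '' Icc 0 s = Icc (μ * s) s := by
      have h5 : (fun t => μ * s + (1 - μ) * t) = (fun t => μ * s + t) ∘ fun t => (1 - μ) * t := rfl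
      rw [h5, Set.image_comp, Set.image_mul_left_Icc (by linarith) hs, Set.image_const_add_Icc]
      congr 1 <;> ring
    rw [h2] at h
    rw [h, lintegral_const_mul']
    · rw [abs_of_pos (by linarith)]
    · exact ENNReal.ofReal_ne_top
  rw [e1, e2]
  have hms : μ * s ≤ s := by nlinarith
  have h0s : 0 ≤ μ * s := by positivity
  have h3 : (Icc 0 (μ * s) ∪ Icc (μ * s) s : Set ℝ) = Icc 0 s := Icc_union_Icc_eq_Icc h0s hms
  have h4 : ∫⁻ t in Icc (μ * s) s, g t = ∫⁻ t in Ioc (μ * s) s, g t :=
    setLIntegral_congr Ioc_ae_eq_Icc.symm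
  rw [h4, ← lintegral_union measurableSet_Ioc, Icc_union_Ioc_eq_Icc h0s hms]
  rw [Set.disjoint_left]
  intro x hx hx2
  exact absurd hx.2 (not_le.2 hx2.1)

theorem refl_one (g : ℝ → ℝ≥0∞) (s : ℝ) :
    ∫⁻ t in Icc 0 s, g t = ∫⁻ t in Icc 0 s, g (s - t) := by
  have h := (Measure.measurePreserving_sub_left (volume : Measure ℝ) s).setLIntegral_comp_preimage_emb
    (MeasurableEquiv.subLeft s).measurableEmbedding g (Icc 0 s)
  rw [← h]
  congr 2
  ext x
  simp only [mem_preimage, mem_Icc]
  constructor <;> rintro ⟨h1, h2⟩ <;> constructor <;> linarith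

section

variable {ι E : Type} [Fintype ι] [DecidableEq ι] [AddCommGroup E] [Module ℝ E]

/-- Integrand as a function on the whole space. -/
noncomputable def fn (V : Option ι → E) (G : E → ℝ≥0∞) (y : ι → ℝ) : ℝ≥0∞ :=
  (T ι).indicator (fun y => G (bar V y)) y

theorem EV_eq (V : Option ι → E) (G : E → ℝ≥0∞) : EV V G = ∫⁻ y, fn V G y := by
  unfold EV fn
  rw [lintegral_indicator (measurableSet_T ι)]

/-- The base point when coordinate `i` is removed. -/
noncomputable def base (V : Option ι → E) (x : ι → ℝ) (i : ι) : E :=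
  ∑ j ∈ Finset.univ.erase i, x j • V (some j)

/-- The remaining length. -/
noncomputable def len (x : ι → ℝ) (i : ι) : ℝ := 1 - ∑ j ∈ Finset.univ.erase i, x j

theorem sum_update (x : ι → ℝ) (i : ι) (t : ℝ) :
    ∑ j, update x i t j = t + ∑ j ∈ Finset.univ.erase i, x j := by
  rw [← Finset.add_sum_erase _ _ (Finset.mem_univ i), update_self]
  congr 1
  refine Finset.sum_congr rfl fun j hj => ?_
  rw [update_of_ne (Finset.ne_of_mem_erase hj)]

theorem bar_update (V : Option ι → E) (x : ι → ℝ) (i : ι) (t : ℝ) :
    bar V (update x i t) = base V x i + t • V (some i) + (len x i - t) • V none := by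
  unfold bar base len
  rw [sum_update, ← Finset.add_sum_erase _ _ (Finset.mem_univ i), update_self]
  have : ∑ j ∈ Finset.univ.erase i, update x i t j • V (some j) =
      ∑ j ∈ Finset.univ.erase i, x j • V (some j) := by
    refine Finset.sum_congr rfl fun j hj => ?_
    rw [update_of_ne (Finset.ne_of_mem_erase hj)]
  rw [this]
  have h2 : (1 - (t + ∑ j ∈ Finset.univ.erase i, x j)) = 1 - ∑ j ∈ Finset.univ.erase i, x j - t := by
    ring
  rw [h2]
  abel

theorem mem_T_update (x : ι → ℝ) (i : ι) (hx : ∀ j, j ≠ i → 0 ≤ x j) (t : ℝ) :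
    update x i t ∈ T ι ↔ t ∈ Icc 0 (len x i) := by
  unfold T len
  simp only [mem_setOf_eq, sum_update, mem_Icc]
  constructor
  · rintro ⟨h1, h2⟩
    refine ⟨by simpa using h1 i, by linarith⟩
  · rintro ⟨h1, h2⟩
    refine ⟨fun j => ?_, by linarith⟩
    rcases eq_or_ne j i with rfl | hj
    · simpa using h1
    · rw [update_of_ne hj]; exact hx j hj

theorem not_mem_T_update (x : ι → ℝ) (i j : ι) (hj : j ≠ i) (hx : x j < 0) (t : ℝ) :
    update x i t ∉ T ι := by
  intro h
  have := h.1 j
  rw [update_of_ne hj] at this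
  linarith

/-- The slice integral. -/
theorem slice (V : Option ι → E) (G : E → ℝ≥0∞) (x : ι → ℝ) (i : ι) :
    ∫⁻ t, fn V G (update x i t) =
      if (∀ j, j ≠ i → 0 ≤ x j) then
        ∫⁻ t in Icc 0 (len x i), G (base V x i + t • V (some i) + (len x i - t) • V none)
      else 0 := by
  split_ifs with h
  · rw [← lintegral_indicator measurableSet_Icc]
    congr 1
    funext t
    unfold fn
    by_cases ht : t ∈ Icc 0 (len x i)
    · rw [indicator_of_mem ((mem_T_update x i h t).2 ht), indicator_of_mem ht, bar_update]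
    · rw [indicator_of_notMem (fun h' => ht ((mem_T_update x i h t).1 h')), indicator_of_notMem ht]
  · push Not at h
    obtain ⟨j, hj, hx⟩ := h
    have : ∀ t, fn V G (update x i t) = 0 := fun t =>
      indicator_of_notMem (not_mem_T_update x i j hj hx t) _
    simp [this]

end

section

variable {ι α : Type} [Fintype ι] [DecidableEq ι] [Fintype α]

theorem measurable_bar (V : Option ι → (α → ℝ)) : Measurable (bar V) := by
  unfold bar
  refine Measurable.add ?_ ?_
  · refine Finset.measurable_sum _ fun i _ => ?_
    exact (measurable_pi_apply i).smul_const _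
  · refine Measurable.smul_const ?_ _
    exact measurable_const.sub (Finset.measurable_sum _ fun i _ => measurable_pi_apply i)

theorem measurable_fn (V : Option ι → (α → ℝ)) (G : (α → ℝ) → ℝ≥0∞) (hG : Measurable G) :
    Measurable (fn V G) :=
  (hG.comp (measurable_bar V)).indicator (measurableSet_T ι)

theorem EV_congr_slice (f g : (ι → ℝ) → ℝ≥0∞) (hf : Measurable f) (hg : Measurable g) (i : ι)
    (h : ∀ x, ∫⁻ t, f (update x i t) = ∫⁻ t, g (update x i t)) : ∫⁻ y, f y = ∫⁻ y, g y := by
  rw [volume_pi]
  refine lintegral_eq_of_lmarginal_eq {i} hf hg ?_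
  rw [lmarginal_singleton, lmarginal_singleton]
  funext x
  exact h x

/-- Symmetry: exchanging the last vertex with another one. -/
theorem EV_swap (V : Option ι → (α → ℝ)) (G : (α → ℝ) → ℝ≥0∞) (hG : Measurable G) (i : ι) :
    EV V G = EV (V ∘ Equiv.swap none (some i)) G := by
  rw [EV_eq, EV_eq]
  refine EV_congr_slice _ _ (measurable_fn _ _ hG) (measurable_fn _ _ hG) i fun x => ?_
  rw [slice, slice]
  split_ifs with h
  · rw [refl_one]
    congr 1
    funext t
    have hb : base (V ∘ Equiv.swap none (some i)) x i = base V x i := by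
      unfold base
      refine Finset.sum_congr rfl fun j hj => ?_
      have hj' : j ≠ i := Finset.ne_of_mem_erase hj
      simp only [Function.comp]
      rw [Equiv.swap_apply_of_ne_of_ne (by simp) (by simpa using hj')]
    rw [hb]
    simp only [Function.comp, Equiv.swap_apply_left, Equiv.swap_apply_right]
    congr 1
    rw [sub_sub_cancel]
    abel
  · rfl

/-- Bisection of the edge from the last vertex to vertex `i`. -/
theorem EV_bisect_last (V : Option ι → (α → ℝ)) (G : (α → ℝ) → ℝ≥0∞) (hG : Measurable G) (i : ι)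
    (μ : ℝ) (h0 : 0 ≤ μ) (h1 : μ ≤ 1) :
    EV V G = ENNReal.ofReal μ * EV (update V (some i) (μ • V (some i) + (1 - μ) • V none)) G +
      ENNReal.ofReal (1 - μ) * EV (update V none (μ • V (some i) + (1 - μ) • V none)) G := by
  rw [EV_eq, EV_eq, EV_eq, ← lintegral_const_mul _ (measurable_fn _ _ hG),
    ← lintegral_const_mul _ (measurable_fn _ _ hG),
    ← lintegral_add_left ((measurable_fn _ _ hG).const_mul _)]
  refine EV_congr_slice _ _ (measurable_fn _ _ hG) (((measurable_fn _ _ hG).const_mul _).add
    ((measurable_fn _ _ hG).const_mul _)) i fun x => ?_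
  have hm : ∀ V' : Option ι → (α → ℝ), Measurable fun t => fn V' G (update x i t) := fun V' =>
    (measurable_fn _ _ hG).comp (measurable_update x)
  rw [lintegral_add_left ((hm _).const_mul _), lintegral_const_mul _ (hm _),
    lintegral_const_mul _ (hm _), slice, slice, slice]
  split_ifs with h
  · rw [split_one _ _ μ h0 h1]
    have hb1 : ∀ w, base (update V (some i) w) x i = base V x i := by
      intro w
      unfold base
      refine Finset.sum_congr rfl fun j hj => ?_
      have hj' : j ≠ i := Finset.ne_of_mem_erase hj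
      rw [update_of_ne (by simpa using hj')]
    have hb2 : ∀ w, base (update V none w) x i = base V x i := by
      intro w
      unfold base
      refine Finset.sum_congr rfl fun j hj => ?_
      rw [update_of_ne (by simp)]
    congr 1
    · congr 2
      funext t
      congr 1
      rw [hb1, update_self, update_of_ne (by simp)]
      module
    · congr 2
      funext t
      congr 1
      rw [hb2, update_self, update_of_ne (by simp)]
      module
  · simp

/-- Bisection of any edge. -/
theorem EV_bisect (V : Option ι → (α → ℝ)) (G : (α → ℝ) → ℝ≥0∞) (hG : Measurable G)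
    (a b : Option ι) (hab : a ≠ b) (μ : ℝ) (h0 : 0 ≤ μ) (h1 : μ ≤ 1) :
    EV V G = ENNReal.ofReal μ * EV (update V a (μ • V a + (1 - μ) • V b)) G +
      ENNReal.ofReal (1 - μ) * EV (update V b (μ • V a + (1 - μ) • V b)) G := by
  -- first the case where `b` is the last vertex
  have key : ∀ (V : Option ι → (α → ℝ)) (i : ι) (μ : ℝ), 0 ≤ μ → μ ≤ 1 →
      EV V G = ENNReal.ofReal μ * EV (update V (some i) (μ • V (some i) + (1 - μ) • V none)) G +
      ENNReal.ofReal (1 - μ) * EV (update V none (μ • V (some i) + (1 - μ) • V none)) G :=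
    fun V i μ h0 h1 => EV_bisect_last V G hG i μ h0 h1
  rcases b with _ | j
  · rcases a with _ | i
    · exact absurd rfl hab
    · exact key V i μ h0 h1
  · rcases a with _ | i
    · -- a is the last vertex
      have := key V j (1 - μ) (by linarith) (by linarith)
      rw [this, add_comm]
      have e : (1 - μ) • V (some j) + (1 - (1 - μ)) • V none = μ • V none + (1 - μ) • V (some j) := by
        rw [sub_sub_cancel, add_comm]
      rw [e, sub_sub_cancel]
    · -- both are ordinary: exchange `j` with the last vertex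
      have hij : i ≠ j := fun h => hab (by rw [h])
      rw [EV_swap V G hG j, key _ i μ h0 h1]
      have s1 : (V ∘ Equiv.swap none (some j)) (some i) = V (some i) := by
        simp only [Function.comp]
        rw [Equiv.swap_apply_of_ne_of_ne (by simp) (by simpa using hij)]
      have s2 : (V ∘ Equiv.swap none (some j)) none = V (some j) := by
        simp [Function.comp]
      rw [s1, s2]
      set w := μ • V (some i) + (1 - μ) • V (some j)
      have c1 : update V (some i) w ∘ Equiv.swap none (some j) =
          update (V ∘ Equiv.swap none (some j)) (some i) w := by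
        funext o
        simp only [Function.comp]
        by_cases ho : o = some i
        · subst ho
          rw [Equiv.swap_apply_of_ne_of_ne (by simp) (by simpa using hij), update_self, update_self]
        · rw [update_of_ne ho, update_of_ne]
          · rfl
          · intro h
            apply ho
            have h' := congrArg (Equiv.swap none (some j)) h
            rw [Equiv.swap_apply_self] at h'
            rw [h', Equiv.swap_apply_of_ne_of_ne (by simp) (by simpa using hij)]
      have c2 : update V (some j) w ∘ Equiv.swap none (some j) =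
          update (V ∘ Equiv.swap none (some j)) none w := by
        funext o
        simp only [Function.comp]
        by_cases ho : o = none
        · subst ho
          rw [Equiv.swap_apply_left, update_self, update_self]
        · rw [update_of_ne ho, update_of_ne]
          · rfl
          · intro h
            apply ho
            have h' := congrArg (Equiv.swap none (some j)) h
            rw [Equiv.swap_apply_self, Equiv.swap_apply_right] at h'
            exact h'
      rw [EV_swap (update V (some i) w) G hG j, EV_swap (update V (some j) w) G hG j, c1, c2]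

end

/-! ### leaves -/

section

variable {ι : Type} [Fintype ι] [DecidableEq ι]

/-- All barycentric coordinates have the same mean. -/
theorem mean_coord (i : ι) :
    ∫⁻ y in T ι, ENNReal.ofReal (y i) = ∫⁻ y in T ι, ENNReal.ofReal (1 - ∑ j, y j) := by
  -- coordinate functions as vertices of the real line
  let V : Option ι → (Unit → ℝ) := fun o _ => if o = some i then 1 else 0
  let G : (Unit → ℝ) → ℝ≥0∞ := fun z => ENNReal.ofReal (z ())
  have hG : Measurable G := ENNReal.measurable_ofReal.comp (measurable_pi_apply ())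
  have h := EV_swap V G hG i
  have e1 : ∀ y : ι → ℝ, bar V y () = y i := by
    intro y
    simp [bar, V]
  have e2 : ∀ y : ι → ℝ, bar (V ∘ Equiv.swap none (some i)) y () = 1 - ∑ j, y j := by
    intro y
    have : ∀ j : ι, (V ∘ Equiv.swap none (some i)) (some j) () = 0 := by
      intro j
      simp only [Function.comp, V]
      by_cases hj : j = i
      · subst hj
        rw [Equiv.swap_apply_right]
        simp
      · rw [Equiv.swap_apply_of_ne_of_ne (by simp) (by simpa using hj)]
        simp [hj]
    have h0 : (V ∘ Equiv.swap none (some i)) none () = 1 := by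
      simp [Function.comp, V]
    simp only [bar, Pi.add_apply, Finset.sum_apply, Pi.smul_apply, this, h0]
    simp
  unfold EV at h
  simpa only [G, e1, e2] using h

/-- The volume of the simplex. -/
noncomputable def vol (ι : Type) [Fintype ι] : ℝ≥0∞ := volume (T ι)

theorem mean_last : ((Fintype.card ι : ℝ≥0∞) + 1) * ∫⁻ y in T ι, ENNReal.ofReal (1 - ∑ j, y j) =
    vol ι := by
  have h1 : ∑ i : ι, ∫⁻ y in T ι, ENNReal.ofReal (y i) =
      (Fintype.card ι : ℝ≥0∞) * ∫⁻ y in T ι, ENNReal.ofReal (1 - ∑ j, y j) := by
    rw [Finset.sum_congr rfl fun i _ => mean_coord i, Finset.sum_const, Finset.card_univ,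
      nsmul_eq_mul]
  rw [add_mul, one_mul, ← h1, ← lintegral_finsetSum, ← lintegral_add_left]
  · have : ∫⁻ y in T ι, (∑ i, ENNReal.ofReal (y i) + ENNReal.ofReal (1 - ∑ j, y j)) =
        ∫⁻ y in T ι, 1 := by
      refine setLIntegral_congr_fun (measurableSet_T ι) fun y hy => ?_
      show ∑ i, ENNReal.ofReal (y i) + ENNReal.ofReal (1 - ∑ j, y j) = 1
      rw [← ENNReal.ofReal_sum_of_nonneg fun i _ => hy.1 i,
        ← ENNReal.ofReal_add (Finset.sum_nonneg fun i _ => hy.1 i) (by linarith [hy.2])]
      simp
    rw [this]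
    simp [vol]
  · exact Finset.measurable_sum _ fun i _ => ENNReal.measurable_ofReal.comp (measurable_pi_apply i)
  · intro i _
    exact ENNReal.measurable_ofReal.comp (measurable_pi_apply i)

/-- The leaf bound. -/
theorem leaf_bound {E : Type} [AddCommGroup E] [Module ℝ E] (V : Option ι → E) (G : E → ℝ≥0∞)
    (c : Option ι → ℝ) (hc : ∀ o, 0 ≤ c o)
    (h : ∀ᵐ y ∂(volume.restrict (T ι)), G (bar V y) ≤
      ENNReal.ofReal (∑ i, y i * c (some i) + (1 - ∑ i, y i) * c none)) :
    EV V G ≤ ENNReal.ofReal ((∑ o, c o) / (Fintype.card ι + 1)) * vol ι := by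
  have h1 : EV V G ≤ ∫⁻ y in T ι, ENNReal.ofReal (∑ i, y i * c (some i) +
      (1 - ∑ i, y i) * c none) := lintegral_mono_ae h
  refine h1.trans ?_
  set I := ∫⁻ y in T ι, ENNReal.ofReal (1 - ∑ j, y j) with hI
  have h2 : ∫⁻ y in T ι, ENNReal.ofReal (∑ i, y i * c (some i) + (1 - ∑ i, y i) * c none) =
      (∑ i, ENNReal.ofReal (c (some i)) + ENNReal.ofReal (c none)) * I := by
    have e1 : ∫⁻ y in T ι, ENNReal.ofReal (∑ i, y i * c (some i) + (1 - ∑ i, y i) * c none) =
        ∫⁻ y in T ι, (∑ i, ENNReal.ofReal (c (some i)) * ENNReal.ofReal (y i) +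
          ENNReal.ofReal (c none) * ENNReal.ofReal (1 - ∑ j, y j)) := by
      refine setLIntegral_congr_fun (measurableSet_T ι) fun y hy => ?_
      show ENNReal.ofReal (∑ i, y i * c (some i) + (1 - ∑ i, y i) * c none) = _
      rw [ENNReal.ofReal_add (Finset.sum_nonneg fun i _ => mul_nonneg (hy.1 i) (hc _))
        (mul_nonneg (by linarith [hy.2]) (hc _)),
        ENNReal.ofReal_sum_of_nonneg fun i _ => mul_nonneg (hy.1 i) (hc _)]
      congr 1
      · refine Finset.sum_congr rfl fun i _ => ?_
        rw [mul_comm, ENNReal.ofReal_mul (hc _)]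
      · rw [mul_comm, ENNReal.ofReal_mul (hc _)]
    rw [e1, lintegral_add_left, lintegral_finsetSum, add_mul, Finset.sum_mul]
    · congr 1
      · refine Finset.sum_congr rfl fun i _ => ?_
        rw [lintegral_const_mul' _ _ ENNReal.ofReal_ne_top, mean_coord]
      · rw [lintegral_const_mul' _ _ ENNReal.ofReal_ne_top]
    · intro i _
      exact (ENNReal.measurable_ofReal.comp (measurable_pi_apply i)).const_mul _
    · exact Finset.measurable_sum _ fun i _ =>
        (ENNReal.measurable_ofReal.comp (measurable_pi_apply i)).const_mul _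
  rw [h2, ← mean_last, ← hI]
  have h3 : ENNReal.ofReal ((∑ o, c o) / (Fintype.card ι + 1)) *
      ((Fintype.card ι : ℝ≥0∞) + 1) = ∑ i, ENNReal.ofReal (c (some i)) + ENNReal.ofReal (c none) := by
    have e2 : ((Fintype.card ι : ℝ≥0∞) + 1) = ENNReal.ofReal (Fintype.card ι + 1) := by
      rw [ENNReal.ofReal_add (Nat.cast_nonneg _) zero_le_one, ENNReal.ofReal_natCast,
        ENNReal.ofReal_one]
    rw [e2, ← ENNReal.ofReal_mul (div_nonneg (Finset.sum_nonneg fun o _ => hc o) (by positivity)),
      div_mul_cancel₀ _ (by positivity), Fintype.sum_option,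
      ENNReal.ofReal_add (hc _) (Finset.sum_nonneg fun o _ => hc _),
      ENNReal.ofReal_sum_of_nonneg fun i _ => hc _, add_comm]
  rw [← mul_assoc, h3]

end

end Pool.Agent.Work.MP_122e00_nt.Chamber
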